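import Pool.Agent.N984.DI.Stm

/-!
# Passage to singular `B`
-/

set_option autoImplicit false

namespace Pool.Agent.N297.DI

open Matrix Filter Topology
open Pool.Agent.N984.DI
open scoped ComplexOrder

section

open scoped Matrix.Norms.L2Operator

theorem mpow_cont {n : ℕ} {q : ℝ} (hq : 0 ≤ q) (X : ℝ → Matrix (Fin n) (Fin n) ℂ)
    (hX : Continuous X) (hH : ∀ e, IsSelfAdjoint (X e)) : Continuous (fun e => mpow (X e) q) := by
  unfold mpow
  exact Continuous.cfc_of_mem_nhdsSet (A := Matrix (Fin n) (Fin n) ℂ) (s := Set.univ)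
    (fun x : ℝ => x ^ q) Filter.univ_mem hX hH (Real.continuous_rpow_const hq).continuousOn

end

/-- passage to singular `B` -/
theorem t_LIMB (_h0 : CFD) (_h1 : SPD) : LIMB := by
  intro hPD n A B hA hB p hp0 hp2
  have hAs : star A = A := hA.isHermitian
  have hBs : star B = B := hB.isHermitian
  have hBh : ∀ e : ℝ, IsSelfAdjoint (B + (e : ℂ) • (1 : Matrix (Fin n) (Fin n) ℂ)) := by
    intro e
    rw [isSelfAdjoint_iff, star_add, hBs, star_smul, star_one]
    congr 2
    simp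
  have c0 : Continuous (fun e : ℝ => B + (e : ℂ) • (1 : Matrix (Fin n) (Fin n) ℂ)) :=
    continuous_const.add (Complex.continuous_ofReal.smul continuous_const)
  have c1 : Continuous (fun e : ℝ => mpow (B + (e : ℂ) • (1 : Matrix (Fin n) (Fin n) ℂ)) p) :=
    mpow_cont hp0.le _ c0 hBh
  have c3 : Continuous (fun e : ℝ => (B + (e : ℂ) • (1 : Matrix (Fin n) (Fin n) ℂ)) * (A * A) *
      (B + (e : ℂ) • (1 : Matrix (Fin n) (Fin n) ℂ))) :=
    (c0.matrix_mul continuous_const).matrix_mul c0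
  have hCh : ∀ e : ℝ, IsSelfAdjoint ((B + (e : ℂ) • (1 : Matrix (Fin n) (Fin n) ℂ)) * (A * A) *
      (B + (e : ℂ) • (1 : Matrix (Fin n) (Fin n) ℂ))) := by
    intro e
    have h := hBh e
    rw [isSelfAdjoint_iff] at h ⊢
    rw [star_mul, star_mul, star_mul, h, hAs, Matrix.mul_assoc, Matrix.mul_assoc, Matrix.mul_assoc]
  have c2 := mpow_cont (by linarith : 0 ≤ p / 2) _ c3 hCh
  have d1 : Continuous (fun e : ℝ => (A * A + mpow A p *
      mpow (B + (e : ℂ) • (1 : Matrix (Fin n) (Fin n) ℂ)) p).det) :=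
    (continuous_const.add (continuous_const.matrix_mul c1)).matrix_det
  have d2 : Continuous (fun e : ℝ => (A * A + mpow ((B + (e : ℂ) • (1 : Matrix (Fin n) (Fin n) ℂ)) *
      (A * A) * (B + (e : ℂ) • (1 : Matrix (Fin n) (Fin n) ℂ))) (p / 2)).det) :=
    (continuous_const.add c2).matrix_det
  have key : ∀ e : ℝ, 0 < e → (A * A + mpow A p *
      mpow (B + (e : ℂ) • (1 : Matrix (Fin n) (Fin n) ℂ)) p).det ≤
      (A * A + mpow ((B + (e : ℂ) • (1 : Matrix (Fin n) (Fin n) ℂ)) *
      (A * A) * (B + (e : ℂ) • (1 : Matrix (Fin n) (Fin n) ℂ))) (p / 2)).det := by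
    intro e he
    refine hPD n A _ hA ?_ p hp0 hp2
    refine Matrix.PosDef.posSemidef_add hB ?_
    exact Matrix.PosDef.smul Matrix.PosDef.one (by exact_mod_cast he)
  have h := le_of_tendsto_of_tendsto (b := 𝓝[>] (0 : ℝ)) ((d1.tendsto 0).mono_left nhdsWithin_le_nhds)
    ((d2.tendsto 0).mono_left nhdsWithin_le_nhds)
    (eventually_of_mem self_mem_nhdsWithin (fun e he => key e he))
  simpa using h

end Pool.Agent.N297.DI
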